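import Pool.Agent.Helper8_HK.Stmt3

/-! HK, module IMA (helper59): the absolute value and the imaginary part. -/

set_option autoImplicit false

namespace Pool.Agent.HK.H59

open Polynomial

section

variable {F : Type} [Field F] [Fintype F] {C : Type} [NormedField C]
  [IsUltrametricDist C] {ι : Kinf F →+* C}


theorem one_lt_q (F : Type) [Field F] [Fintype F] : (1 : ℝ) < ((Fintype.card F : ℕ) : ℝ) := by
  exact_mod_cast Fintype.one_lt_card (α := F)

theorem card_zero (ι : Kinf F →+* C) : ((Fintype.card F : ℕ) : C) = 0 := by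
  have h1 : ((Fintype.card F : ℕ) : F) = 0 := FiniteField.cast_card_eq_zero F
  have h2 : (ι.comp (cst F)) ((Fintype.card F : ℕ) : F) = ((Fintype.card F : ℕ) : C) := map_natCast _ _
  rw [← h2, h1, map_zero]

theorem order_ge {x : Kinf F} {k : ℤ} (hx : x ≠ 0) (h : InO k x) : k ≤ HahnSeries.order x := by
  by_contra hc
  push Not at hc
  have := h _ hc
  rw [HahnSeries.coeff_order_eq_zero] at this
  exact hx this

theorem norm_le_of_inO (h : NormOK ι) {x : Kinf F} {k : ℤ} (hx : InO k x) :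
    ‖ι x‖ ≤ ((Fintype.card F : ℕ) : ℝ) ^ (-k) := by
  have hq := one_lt_q F
  by_cases h0 : x = 0
  · rw [h0, map_zero, norm_zero]
    positivity
  · rw [h x h0]
    have := order_ge h0 hx
    exact zpow_le_zpow_right₀ hq.le (by omega)

theorem norm_eq_of_inO (h : NormOK ι) {x : Kinf F} {k : ℤ} (hx : InO k x)
    (hk : HahnSeries.coeff x k ≠ 0) : ‖ι x‖ = ((Fintype.card F : ℕ) : ℝ) ^ (-k) := by
  have h0 : x ≠ 0 := by rintro rfl; exact hk rfl
  rw [h x h0]
  have h1 := order_ge h0 hx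
  have h2 := HahnSeries.order_le_of_coeff_ne_zero hk
  have : HahnSeries.order x = k := le_antisymm h2 h1
  rw [this]

theorem inO_of_norm_le (h : NormOK ι) {x : Kinf F} {k : ℤ} (hx : ‖ι x‖ ≤ ((Fintype.card F : ℕ) : ℝ) ^ (-k)) :
    InO k x := by
  have hq := one_lt_q F
  by_cases h0 : x = 0
  · intro i _; rw [h0]; rfl
  · rw [h x h0] at hx
    have h1 := (zpow_le_zpow_iff_right₀ hq).1 hx
    intro i hi
    exact HahnSeries.coeff_eq_zero_of_lt_order (by omega)

theorem norm_zpow (h : NormOK ι) (x : Kinf F) : ‖ι x‖ = 0 ∨ ∃ k : ℤ, ‖ι x‖ = ((Fintype.card F : ℕ) : ℝ) ^ k := by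
  by_cases h0 : x = 0
  · left; rw [h0, map_zero, norm_zero]
  · right; exact ⟨_, h x h0⟩

omit [Fintype F] [IsUltrametricDist C] in
theorem imz_nonneg (ι : Kinf F →+* C) (z : C) : 0 ≤ imz ι z :=
  Real.iInf_nonneg fun _ => norm_nonneg _

omit [Fintype F] [IsUltrametricDist C] in
theorem imz_le (ι : Kinf F →+* C) (z : C) (x : Kinf F) : imz ι z ≤ ‖z - ι x‖ :=
  ciInf_le ⟨0, by rintro _ ⟨y, rfl⟩; exact norm_nonneg _⟩ x

omit [Fintype F] [IsUltrametricDist C] in
theorem le_imz (ι : Kinf F →+* C) (z : C) (c : ℝ) (h : ∀ x : Kinf F, c ≤ ‖z - ι x‖) :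
    c ≤ imz ι z := le_ciInf h

theorem norm_sub_of_lt (z : C) (x x' : Kinf F) (h : ‖z - ι x'‖ < ‖z - ι x‖) :
    ‖ι (x - x')‖ = ‖z - ι x‖ := by
  have e : z - ι x' = (z - ι x) + ι (x - x') := by rw [map_sub]; ring
  by_contra hne
  have h1 := IsUltrametricDist.norm_add_eq_max_of_norm_ne_norm (x := z - ι x) (y := ι (x - x'))
    (fun h => hne h.symm)
  rw [← e] at h1
  have h2 := le_max_left ‖z - ι x‖ ‖ι (x - x')‖
  rw [← h1] at h2
  exact absurd h (not_lt.2 h2)

/-- completeness of the subfield -/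
theorem complete_K (h : NormOK ι) (z : C) (x : ℕ → Kinf F)
    (hx : ∀ N : ℕ, ‖z - ι (x N)‖ ≤ ((Fintype.card F : ℕ) : ℝ) ^ (-(N : ℤ))) : ∃ y : Kinf F, z = ι y := by
  have hq := one_lt_q F
  have hcl : ∀ N M : ℕ, N ≤ M → InO (N : ℤ) (x N - x M) := by
    intro N M hNM
    apply inO_of_norm_le h
    have e : ι (x N - x M) = (z - ι (x M)) + -(z - ι (x N)) := by rw [map_sub]; ring
    rw [e]
    refine (IsUltrametricDist.norm_add_le_max _ _).trans (max_le ?_ ?_)
    · refine (hx M).trans (zpow_le_zpow_right₀ hq.le ?_)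
      have : (N : ℤ) ≤ M := by exact_mod_cast hNM
      omega
    · rw [norm_neg]; exact hx N
  have hco : ∀ (N : ℕ) (i : ℤ), i < N →
      HahnSeries.coeff (x (i + 1).toNat) i = HahnSeries.coeff (x N) i := by
    intro N i hi
    have h1 : (i + 1).toNat ≤ N := by omega
    have h2 := hcl _ _ h1 i (by omega)
    rw [HahnSeries.coeff_sub] at h2
    exact sub_eq_zero.1 h2
  let f : ℤ → F := fun i => HahnSeries.coeff (x (i + 1).toNat) i
  have hf : BddBelow (Function.support f) := by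
    refine ⟨min 0 (HahnSeries.order (x 0)), ?_⟩
    intro i hi
    by_contra hc
    push Not at hc
    rw [lt_min_iff] at hc
    apply hi
    have h1 : f i = HahnSeries.coeff (x 0) i := hco 0 i (by exact_mod_cast hc.1)
    rw [h1]
    exact HahnSeries.coeff_eq_zero_of_lt_order hc.2
  refine ⟨HahnSeries.ofSuppBddBelow f hf, ?_⟩
  have hd : ∀ N : ℕ, ‖z - ι (HahnSeries.ofSuppBddBelow f hf)‖ ≤ ((Fintype.card F : ℕ) : ℝ) ^ (-(N : ℤ)) := by
    intro N
    have e : z - ι (HahnSeries.ofSuppBddBelow f hf) = (z - ι (x N)) +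
        ι (x N - HahnSeries.ofSuppBddBelow f hf) := by rw [map_sub]; ring
    rw [e]
    refine (IsUltrametricDist.norm_add_le_max _ _).trans (max_le (hx N) ?_)
    apply norm_le_of_inO h
    intro i hi
    rw [HahnSeries.coeff_sub, HahnSeries.coeff_ofSuppBddBelow]
    have h1 : f i = HahnSeries.coeff (x N) i := hco N i hi
    rw [h1, sub_self]
  have h0 : ‖z - ι (HahnSeries.ofSuppBddBelow f hf)‖ ≤ 0 := by
    refine le_of_forall_pos_le_add fun ε hε => ?_
    obtain ⟨N, hN⟩ := exists_pow_lt_of_lt_one hε (inv_lt_one_of_one_lt₀ hq)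
    have h1 := hd N
    rw [zpow_neg, zpow_natCast, ← inv_pow] at h1
    linarith
  exact sub_eq_zero.1 (norm_le_zero_iff.1 h0)

theorem attained (h : NormOK ι) (z : C) (hz : z ∈ Om ι) :
    ∃ x : Kinf F, imz ι z = ‖z - ι x‖ := by
  have hq := one_lt_q F
  by_contra hcon
  push Not at hcon
  have hlt : ∀ x : Kinf F, imz ι z < ‖z - ι x‖ := fun x => lt_of_le_of_ne (imz_le ι z x) (hcon x)
  -- every element can be improved
  have himp : ∀ x : Kinf F, ∃ x' : Kinf F, ‖z - ι x'‖ < ‖z - ι x‖ := by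
    intro x
    by_contra hc
    push Not at hc
    exact absurd (le_imz ι z _ hc) (not_le.2 (hlt x))
  have hval : ∀ x : Kinf F, ∃ k : ℤ, ‖z - ι x‖ = ((Fintype.card F : ℕ) : ℝ) ^ k := by
    intro x
    obtain ⟨x', hx'⟩ := himp x
    have h1 := norm_sub_of_lt z x x' hx'
    rcases norm_zpow h (x - x') with h2 | ⟨k, h2⟩
    · exfalso
      rw [h2] at h1
      rw [← h1] at hx'
      exact absurd hx' (not_lt.2 (norm_nonneg _))
    · exact ⟨k, by rw [← h1, h2]⟩
  -- hence the norms are arbitrarily small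
  have hsm : ∀ n : ℕ, ∃ x : Kinf F, ‖z - ι x‖ ≤ ((Fintype.card F : ℕ) : ℝ) ^ (-(n : ℤ)) := by
    intro n
    obtain ⟨k0, hk0⟩ := hval 0
    have hstep : ∀ m : ℕ, ∃ x : Kinf F, ‖z - ι x‖ ≤ ((Fintype.card F : ℕ) : ℝ) ^ (k0 - (m : ℤ)) := by
      intro m
      induction m with
      | zero => exact ⟨0, by rw [hk0]; simp⟩
      | succ m ih =>
        obtain ⟨x, hx⟩ := ih
        obtain ⟨x', hx'⟩ := himp x
        obtain ⟨k, hk⟩ := hval x'
        refine ⟨x', ?_⟩
        have h1 : ((Fintype.card F : ℕ) : ℝ) ^ k < ((Fintype.card F : ℕ) : ℝ) ^ (k0 - (m : ℤ)) := by rw [← hk]; exact hx'.trans_le hx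
        have h2 := (zpow_lt_zpow_iff_right₀ hq).1 h1
        rw [hk]
        refine zpow_le_zpow_right₀ hq.le ?_
        push_cast
        omega
    obtain ⟨x, hx⟩ := hstep (n + k0.toNat)
    refine ⟨x, hx.trans (zpow_le_zpow_right₀ hq.le ?_)⟩
    push_cast
    omega
  choose x hx using hsm
  obtain ⟨y, hy⟩ := complete_K h z x hx
  exact hz y hy

end

/-- Module IMA. -/
theorem ima : IMAStmt := by
  intro F _ _ C _ _ _ _ ι h
  have hq := one_lt_q F
  have hq0 : (0 : ℝ) < ((Fintype.card F : ℕ) : ℝ) := by linarith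
  have hatt : ∀ z ∈ Om ι, 0 < imz ι z ∧ ∃ x : Kinf F, imz ι z = ‖z - ι x‖ := by
    intro z hz
    obtain ⟨x, hx⟩ := attained h z hz
    refine ⟨?_, x, hx⟩
    rw [hx]
    exact norm_pos_iff.2 (sub_ne_zero.2 (hz x))
  have hOmN : ∀ (N : ℕ) (z : C), z ∈ OmN ι N ↔ z ∈ Om ι ∧
      ‖z‖ ≤ ((Fintype.card F : ℕ) : ℝ) ^ N ∧ (((Fintype.card F : ℕ) : ℝ) ^ N)⁻¹ ≤ imz ι z := by
    intro N z
    constructor
    · rintro ⟨h1, h2⟩
      refine ⟨fun x hx => ?_, h1, le_imz ι z _ h2⟩
      have h3 := h2 x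
      rw [← hx, sub_self, norm_zero] at h3
      have : (0 : ℝ) < (((Fintype.card F : ℕ) : ℝ) ^ N)⁻¹ := by positivity
      linarith
    · rintro ⟨_, h1, h2⟩
      exact ⟨h1, fun x => h2.trans (imz_le ι z x)⟩
  refine ⟨card_zero ι, fun x k => norm_le_of_inO h, fun x k => norm_eq_of_inO h,
    fun x k => inO_of_norm_le h, fun z => ⟨imz_nonneg ι z, imz_le ι z⟩, hatt, ?_, hOmN, ?_, ?_, ?_⟩
  · intro z x
    constructor
    · apply le_antisymm
      · refine le_imz ι z _ fun y => ?_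
        have := imz_le ι (z + ι x) (x + y)
        rwa [map_add, add_comm (ι x) (ι y), add_sub_add_right_eq_sub] at this
      · refine le_imz ι _ _ fun y => ?_
        have := imz_le ι z (y - x)
        rw [map_sub] at this
        have e : z - (ι y - ι x) = z + ι x - ι y := by ring
        rwa [e] at this
    · constructor
      · intro hz y hy
        apply hz (y - x)
        rw [map_sub, ← hy]; ring
      · intro hz y hy
        apply hz (y + x)
        rw [map_add, ← hy]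
  · intro z hz
    obtain ⟨h1, _⟩ := hatt z hz
    obtain ⟨N1, hN1⟩ := pow_unbounded_of_one_lt ‖z‖ hq
    obtain ⟨N2, hN2⟩ := pow_unbounded_of_one_lt (imz ι z)⁻¹ hq
    refine ⟨max N1 N2, (hOmN _ _).2 ⟨hz, ?_, ?_⟩⟩
    · exact hN1.le.trans (pow_le_pow_right₀ hq.le (le_max_left _ _))
    · have h2 : (imz ι z)⁻¹ ≤ ((Fintype.card F : ℕ) : ℝ) ^ (max N1 N2) :=
        hN2.le.trans (pow_le_pow_right₀ hq.le (le_max_right _ _))
      rw [inv_le_comm₀ (by positivity) h1]
      exact h2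
  · intro N M hNM z hz
    obtain ⟨h1, h2⟩ := hz
    refine ⟨h1.trans (pow_le_pow_right₀ hq.le hNM), fun x => le_trans ?_ (h2 x)⟩
    exact inv_anti₀ (by positivity) (pow_le_pow_right₀ hq.le hNM)
  · intro z k hk1 hk2
    have hne : ∀ x : Kinf F, ‖z‖ ≠ ‖ι x‖ := by
      intro x hx
      rcases norm_zpow h x with h2 | ⟨j, h2⟩
      · have : (0 : ℝ) < ((Fintype.card F : ℕ) : ℝ) ^ k := by positivity
        rw [hx, h2] at hk1
        linarith
      · rw [hx, h2] at hk1 hk2
        have h3 := (zpow_lt_zpow_iff_right₀ hq).1 hk1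
        have h4 := (zpow_lt_zpow_iff_right₀ hq).1 hk2
        omega
    have hge : ∀ x : Kinf F, ‖z‖ ≤ ‖z - ι x‖ := by
      intro x
      have h1 := IsUltrametricDist.norm_add_eq_max_of_norm_ne_norm (x := z) (y := -(ι x))
        (by rw [norm_neg]; exact hne x)
      rw [sub_eq_add_neg, h1]
      exact le_max_left _ _
    refine ⟨fun x hx => hne x (by rw [← hx]), le_antisymm ?_ (le_imz ι z _ hge)⟩
    have := imz_le ι z 0
    rwa [map_zero, sub_zero] at this

end Pool.Agent.HK.H59
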