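import Pool.Agent.Helper8_HK.Stmt3

/-! HK, module KHA (helper59): the cochain of residues. -/

set_option autoImplicit false

namespace Pool.Agent.HK.H59

open Polynomial Filter

/-- Module KHA. -/
theorem kha (hKIW : KIWStmt) (hKFL : KFLStmt) (hKSM : KSMStmt) (hSLA : SLAStmt) (hHOL : HOLStmt)
    (hNIC : NICStmt) (hRES : RESStmt) : KHAStmt := by
  intro F _ _ C _ _ _ _ ι ρ hc
  obtain ⟨_, hS⟩ := hSLA F C ι hc.ok
  have hH := hHOL F C ι hc.ok
  obtain ⟨n1, n2, n3, n4, n5, n6⟩ := hNIC F C ι ρ hc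
  obtain ⟨_, r2, r3, r4, r5, _⟩ := hRES F C ι ρ hc
  have hρ : 0 < ‖ρ‖ := by linarith
  have hmul : ∀ f : C → C, Off ι f → ∀ g h : GLK F,
      kap ι ρ (slash ι g f) h = kap ι ρ f (g * h) := by
    intro f hf g h
    unfold kap
    rw [(hS f hf).2.1 g h]
  refine ⟨?_, ?_, ?_⟩
  · intro f hoff hf
    obtain ⟨s1, s2, s3, s4, s5, s6⟩ := hS f hoff
    refine ⟨⟨?_, ?_, ?_⟩, hmul f hoff, ?_, ?_⟩
    · intro g z k hz hk
      have e1 : slash ι (g * scal z * k) f = slash ι k (slash ι g f) := by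
        rw [s2 (g * scal z) k, s2 g (scal z), (hS _ (s1 g)).2.2.2.1 z hz]
      unfold kap
      rw [e1]
      exact hKIW F C ι ρ hc _ ((hH f hf).1 g) k hk
    · intro g
      unfold kap
      rw [s2 g flipM]
      exact hKFL F C ι ρ hc _ ((hH f hf).1 g)
    · intro g
      unfold kap
      have h1 := hKSM F C ι ρ hc _ ((hH f hf).1 g)
      have e : ∀ u : F, slash ι (g * mat (cst F u) 1 1 0) f =
          slash ι (mat (cst F u) 1 1 0) (slash ι g f) := fun u => s2 _ _
      simp only [e]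
      exact h1
    · intro n hn γ hγ g
      rw [← hmul f hoff (toK γ) g, hn γ hγ]
    · intro B hB g
      have h1 : BddI ι B (slash ι g f) := s6 B g hB
      have hB' : ∀ z : C, ‖z‖ = ‖ρ‖ → ‖slash ι g f z‖ ≤ B / ‖ρ‖ := by
        intro z hz
        obtain ⟨h2, h3⟩ := n4 z hz
        have h4 : z ∈ Om ι := by
          intro x hx
          have h5 := h2.2 x
          rw [← hx, sub_self, norm_zero] at h5
          have h6 : (0 : ℝ) < ((Fintype.card F : ℕ) : ℝ) := by
            exact_mod_cast Fintype.card_pos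
          have h7 : (0 : ℝ) < (((Fintype.card F : ℕ) : ℝ) ^ 1)⁻¹ := by positivity
          linarith
        have h8 := h1 z h4
        rw [h3] at h8
        rw [le_div_iff₀ hρ]
        exact h8
      have hB0 : 0 ≤ B / ‖ρ‖ := (norm_nonneg _).trans (hB' ρ rfl)
      have h2 := r5 (slash ι g f) (B / ‖ρ‖) (n6 _ ((hH f hf).1 g)) hB0 hB'
      unfold kap
      refine h2.trans (le_of_eq ?_)
      field_simp
  · intro f f' hf hf'
    funext g
    have h1 := (r2 (slash ι g f) (slash ι g f') (n6 _ ((hH f hf).1 g))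
      (n6 _ ((hH f' hf').1 g))).2
    simp only [Pi.add_apply]
    unfold kap
    rw [slash_add]
    exact h1
  · intro c f hf
    funext g
    have h1 := (r3 c (slash ι g f) (n6 _ ((hH f hf).1 g))).2
    simp only [Pi.smul_apply, smul_eq_mul]
    unfold kap
    rw [slash_smul]
    exact h1

end Pool.Agent.HK.H59
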