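import Pool.Agent.Helper8_HK.Stmt4

/-! HK, module KNF (helper59): the completion of `F(T)` at infinity as a complete
non-archimedean field. -/

set_option autoImplicit false

namespace Pool.Agent.HK.H59K

open Polynomial Filter Topology

section

variable (F : Type) [Field F] [Fintype F]

/-- a copy of the field of Laurent series -/
def KK : Type := Kinf F

noncomputable instance : Field (KK F) := inferInstanceAs (Field (Kinf F))

open Classical in
/-- the absolute value -/
noncomputable def nrm (x : Kinf F) : ℝ :=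
  if x = 0 then 0 else ((Fintype.card F : ℕ) : ℝ) ^ (-(HahnSeries.order x))

theorem one_lt_q' : (1 : ℝ) < ((Fintype.card F : ℕ) : ℝ) := by
  exact_mod_cast Fintype.one_lt_card (α := F)

theorem nrm_of_ne {x : Kinf F} (hx : x ≠ 0) :
    nrm F x = ((Fintype.card F : ℕ) : ℝ) ^ (-(HahnSeries.order x)) := if_neg hx

theorem nrm_zero : nrm F 0 = 0 := if_pos rfl

theorem nrm_pos {x : Kinf F} (hx : x ≠ 0) : 0 < nrm F x := by
  rw [nrm_of_ne F hx]
  have := one_lt_q' F
  positivity

theorem nrm_nonneg (x : Kinf F) : 0 ≤ nrm F x := by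
  by_cases hx : x = 0
  · rw [hx, nrm_zero]
  · exact (nrm_pos F hx).le

theorem nrm_add_le (x y : Kinf F) : nrm F (x + y) ≤ max (nrm F x) (nrm F y) := by
  have hq := one_lt_q' F
  by_cases hx : x = 0
  · rw [hx, zero_add]; exact le_max_right _ _
  by_cases hy : y = 0
  · rw [hy, add_zero]; exact le_max_left _ _
  by_cases hxy : x + y = 0
  · rw [hxy, nrm_zero]; exact le_max_of_le_left (nrm_nonneg F x)
  rw [nrm_of_ne F hx, nrm_of_ne F hy, nrm_of_ne F hxy]
  have h1 := HahnSeries.min_order_le_order_add hxy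
  rcases le_total (HahnSeries.order x) (HahnSeries.order y) with h | h
  · refine le_max_of_le_left (zpow_le_zpow_right₀ hq.le ?_)
    rw [min_eq_left h] at h1
    omega
  · refine le_max_of_le_right (zpow_le_zpow_right₀ hq.le ?_)
    rw [min_eq_right h] at h1
    omega

theorem nrm_mul (x y : Kinf F) : nrm F (x * y) = nrm F x * nrm F y := by
  have hq := one_lt_q' F
  by_cases hx : x = 0
  · rw [hx, zero_mul, nrm_zero, zero_mul]
  by_cases hy : y = 0
  · rw [hy, mul_zero, nrm_zero, mul_zero]
  rw [nrm_of_ne F hx, nrm_of_ne F hy, nrm_of_ne F (mul_ne_zero hx hy),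
    HahnSeries.order_mul hx hy, neg_add, zpow_add₀ (by linarith)]

/-- the absolute value -/
noncomputable def av : AbsoluteValue (KK F) ℝ where
  toFun x := nrm F x
  map_mul' x y := nrm_mul F x y
  nonneg' x := nrm_nonneg F x
  eq_zero' x := by
    constructor
    · intro h
      by_contra hx
      exact (nrm_pos F hx).ne' h
    · intro h
      have h1 : nrm F (id x : Kinf F) = nrm F 0 := congrArg (nrm F) h
      exact h1.trans (nrm_zero F)
  add_le' x y := by
    refine (nrm_add_le F x y).trans (max_le ?_ ?_)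
    · exact le_add_of_nonneg_right (nrm_nonneg F y)
    · exact le_add_of_nonneg_left (nrm_nonneg F x)

theorem nrm_lt_iff {x : Kinf F} {k : ℤ} (h : nrm F x < ((Fintype.card F : ℕ) : ℝ) ^ (-k)) :
    InO (k + 1) x := by
  have hq := one_lt_q' F
  intro i hi
  by_cases hx : x = 0
  · rw [hx]; rfl
  rw [nrm_of_ne F hx] at h
  have := (zpow_lt_zpow_iff_right₀ hq).1 h
  exact HahnSeries.coeff_eq_zero_of_lt_order (by omega)

theorem nrm_le_of {x : Kinf F} {k : ℤ} (h : InO k x) :
    nrm F x ≤ ((Fintype.card F : ℕ) : ℝ) ^ (-k) := by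
  have hq := one_lt_q' F
  by_cases hx : x = 0
  · rw [hx, nrm_zero]; positivity
  rw [nrm_of_ne F hx]
  refine zpow_le_zpow_right₀ hq.le ?_
  have : k ≤ HahnSeries.order x := by
    by_contra hc
    push Not at hc
    have h2 := h _ hc
    rw [HahnSeries.coeff_order_eq_zero] at h2
    exact hx h2
  omega

omit [Fintype F] in
/-- limits of coherent sequences -/
theorem exists_lim (x : ℕ → Kinf F) (hcl : ∀ N M : ℕ, N ≤ M → InO (N : ℤ) (x N - x M)) :
    ∃ y : Kinf F, ∀ N : ℕ, InO (N : ℤ) (x N - y) := by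
  have hco : ∀ (N : ℕ) (i : ℤ), i < N →
      HahnSeries.coeff (x (i + 1).toNat) i = HahnSeries.coeff (x N) i := by
    intro N i hi
    have h1 : (i + 1).toNat ≤ N := by omega
    have h2 := hcl _ _ h1 i (by omega)
    rw [HahnSeries.coeff_sub] at h2
    exact sub_eq_zero.1 h2
  let f : ℤ → F := fun i => HahnSeries.coeff (x (i + 1).toNat) i
  have hf : BddBelow (Function.support f) := by
    refine ⟨min 0 (HahnSeries.order (x 0)), ?_⟩
    intro i hi
    by_contra hc
    push Not at hc
    rw [lt_min_iff] at hc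
    apply hi
    have h1 : f i = HahnSeries.coeff (x 0) i := hco 0 i (by exact_mod_cast hc.1)
    rw [h1]
    exact HahnSeries.coeff_eq_zero_of_lt_order hc.2
  refine ⟨HahnSeries.ofSuppBddBelow f hf, fun N i hi => ?_⟩
  rw [HahnSeries.coeff_sub, HahnSeries.coeff_ofSuppBddBelow]
  have h1 : f i = HahnSeries.coeff (x N) i := hco N i hi
  rw [h1, sub_self]

/-- the normed field -/
@[reducible] noncomputable def nnf : NontriviallyNormedField (KK F) :=
  { (av F).toNormedField with
    non_trivial := ⟨(HahnSeries.single (-1 : ℤ) (1 : F) : Kinf F), by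
      have hq := one_lt_q' F
      have h0 : (HahnSeries.single (-1 : ℤ) (1 : F) : Kinf F) ≠ 0 :=
        HahnSeries.single_ne_zero one_ne_zero
      have h1 : nrm F (HahnSeries.single (-1 : ℤ) (1 : F)) = ((Fintype.card F : ℕ) : ℝ) := by
        rw [nrm_of_ne F h0, HahnSeries.order_single one_ne_zero, neg_neg, zpow_one]
      show 1 < nrm F (HahnSeries.single (-1 : ℤ) (1 : F))
      rw [h1]
      exact hq⟩ }

end

/-- Module KNF. -/
theorem knf : KNFStmt := by
  intro F _ _
  have hq := one_lt_q' F
  let _ : NontriviallyNormedField (KK F) := nnf F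
  have hn : ∀ x : KK F, ‖x‖ = nrm F x := fun x => rfl
  have hd : ∀ x y : KK F, dist x y = nrm F ((x : Kinf F) - (y : Kinf F)) := fun x y => by
    rw [dist_eq_norm]; rfl
  have hu : IsUltrametricDist (KK F) :=
    IsUltrametricDist.isUltrametricDist_of_forall_norm_add_le_max_norm fun x y => nrm_add_le F x y
  have hcomp : CompleteSpace (KK F) := by
    refine Metric.complete_of_convergent_controlled_sequences
      (fun n => ((Fintype.card F : ℕ) : ℝ) ^ (-(n : ℤ))) (fun n => by positivity) ?_
    intro x hx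
    obtain ⟨y, hy⟩ := exists_lim F x (fun N M hNM => by
      have h1 := hx N N M le_rfl hNM
      rw [hd] at h1
      have h2 := nrm_lt_iff F h1
      intro i hi
      exact h2 i (by omega))
    refine ⟨(show KK F from y), ?_⟩
    refine Metric.tendsto_atTop.2 ?_
    intro ε hε
    obtain ⟨N, hN⟩ := exists_pow_lt_of_lt_one hε (inv_lt_one_of_one_lt₀ hq)
    refine ⟨N, fun n hn' => ?_⟩
    rw [hd]
    refine (nrm_le_of F (hy n)).trans_lt ?_
    have h1 : ((Fintype.card F : ℕ) : ℝ) ^ (-(n : ℤ)) ≤ ((Fintype.card F : ℕ) : ℝ) ^ (-(N : ℤ)) :=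
      zpow_le_zpow_right₀ hq.le (by
        have : (N : ℤ) ≤ n := by exact_mod_cast hn'
        omega)
    refine h1.trans_lt ?_
    rw [zpow_neg, zpow_natCast, ← inv_pow]
    exact hN
  exact ⟨KK F, inferInstance, hcomp, hu, RingEquiv.refl (Kinf F), fun x hx => nrm_of_ne F hx⟩

end Pool.Agent.HK.H59K
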