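import Pool.Agent.Helper8_HK.Stmt1

/-! HK, module ZER (helper59): a harmonic cochain vanishing on `GL_2(A)` is zero. -/

set_option autoImplicit false

namespace Pool.Agent.HK.H59

open Polynomial

theorem embX (F : Type) [Field F] : emb F X = (unif F) ^ (-1 : ℤ) := by
  have h1 : emb F X = HahnSeries.single (-1 : ℤ) (1 : F) := by
    simp [emb]
  rw [h1, zpow_neg_one]
  apply eq_inv_of_mul_eq_one_left
  rw [unif, HahnSeries.single_mul_single]
  simp

theorem embCX (F : Type) [Field F] (s : F) (n : ℕ) :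
    emb F (C s * X ^ n) = cst F s * (unif F) ^ (-(n : ℤ)) := by
  rw [map_mul, map_pow, embX]
  have h1 : emb F (C s) = cst F s := by simp [emb]
  rw [h1, ← zpow_natCast, ← zpow_mul]
  congr 2
  ring

theorem unif_ne (F : Type) [Field F] : unif F ≠ 0 := by
  rw [unif]
  exact (HahnSeries.single_ne_zero (one_ne_zero))

/-- The matrix `(0,1;1,0)` as an element of `GL_2(A)`. -/
theorem exists_w (hMTX : MTXStmt) (F : Type) [Field F] :
    ∃ w : GLA F, (toK w : GLK F) = mat 0 1 1 0 := by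
  obtain ⟨_, m2, _, _, _, _, _, _, _, _, _, m12, m13, _, _, _, _⟩ := hMTX F
  obtain ⟨w, w1, w2, w3, w4⟩ := m13 0 1 1 0 (by simp)
  refine ⟨w, ?_⟩
  obtain ⟨e1, e2, e3, e4⟩ := m12 w
  rw [(m2 (toK w)).1, e1, e2, e3, e4, w1, w2, w3, w4]
  simp

theorem zer (hRED : REDStmt) (hVAL : VALStmt) (hMTX : MTXStmt) : ZERStmt := by
  intro F _ _ R _ φ hφ h0
  obtain ⟨m1, m2, m3, _, m5, _, _, _, _, _, _, _, _, m14, _, _, _⟩ := hMTX F
  obtain ⟨_, _, v3, _, _, v6, _⟩ := hVAL F R φ hφ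
  have hz : ∀ (j : ℕ) (γ : GLA F), φ (toK γ * mat ((unif F) ^ (-(j : ℤ))) 0 0 1) = 0 := by
    intro j
    induction j with
    | zero =>
      intro γ
      have : mat ((unif F) ^ (-((0 : ℕ) : ℤ))) 0 0 1 = (1 : GLK F) := by
        simp only [Nat.cast_zero, neg_zero, zpow_zero]
        exact m5
      rw [this, mul_one]
      exact h0 γ
    | succ j ih =>
      intro γ
      rw [← v3 (toK γ) (-((j + 1 : ℕ) : ℤ)) 0]
      apply Finset.sum_eq_zero
      intro s _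
      obtain ⟨δ, _, hδ⟩ := m14 (C s * X ^ (j + 1)) 1
      have e1 : -((j + 1 : ℕ) : ℤ) + 1 = -(j : ℤ) := by push_cast; ring
      have hu : (unif F) ^ (-(j : ℤ)) ≠ 0 := zpow_ne_zero _ (unif_ne F)
      have e2 : mat ((unif F) ^ (-((j + 1 : ℕ) : ℤ) + 1))
          (0 + cst F s * (unif F) ^ (-((j + 1 : ℕ) : ℤ))) 0 1 =
          (toK δ : GLK F) * mat ((unif F) ^ (-(j : ℤ))) 0 0 1 := by
        rw [hδ, m3 _ _ _ _ _ _ _ _ (by simp) (by simpa using hu), embCX, e1]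
        congr 1 <;> simp
      rw [e2, ← mul_assoc, ← map_mul]
      exact ih (γ * δ)
  have h1 : ∀ γ : GLA F, φ (toK γ * mat ((unif F) ^ (1 : ℤ)) 0 0 1) = 0 := by
    intro γ
    rw [zpow_one, v6]
    obtain ⟨w, hw⟩ := exists_w hMTX F
    rw [← hw, ← map_mul, h0, neg_zero]
  have hall : ∀ (j : ℤ), j ≤ 1 → ∀ γ : GLA F, φ (toK γ * mat ((unif F) ^ j) 0 0 1) = 0 := by
    intro j hj γ
    rcases eq_or_lt_of_le hj with h | h
    · rw [h]; exact h1 γ
    · obtain ⟨n, hn⟩ : ∃ n : ℕ, j = -(n : ℤ) := ⟨(-j).toNat, by omega⟩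
      rw [hn]
      exact hz n γ
  intro g
  obtain ⟨γ, j, z, i, hj, hz0, hi, h | h⟩ := hRED F g
  · rw [h, hφ.inv _ z i hz0 hi]
    exact hall j hj γ
  · rw [h, hφ.inv _ z i hz0 hi, hφ.rev, hall j hj γ, neg_zero]

end Pool.Agent.HK.H59
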