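import Pool.Agent.Helper59_HK.ZER

/-! HK, module ZLV (helper59): level one. -/

set_option autoImplicit false

namespace Pool.Agent.HK.H59

open Polynomial

theorem zlv (hZER : ZERStmt) (hVAL : VALStmt) (hMTX : MTXStmt) : ZLVStmt := by
  intro F _ _ R _ φ hφ hinv hv
  obtain ⟨_, _, _, _, _, v6, _⟩ := hVAL F R φ hφ
  obtain ⟨w, hw⟩ := exists_w hMTX F
  refine hZER F R φ hφ ?_
  intro γ
  have e1 : γ = (γ * w⁻¹) * w := by group
  rw [e1, map_mul, hw]
  have e2 := v6 (toK (γ * w⁻¹))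
  have e3 : φ (toK (γ * w⁻¹) * mat (unif F) 0 0 1) = 0 := by
    rw [hinv (γ * w⁻¹) (by simp [Gam0])]
    simpa [val] using hv
  rw [e3] at e2
  have e4 : -φ (toK (γ * w⁻¹) * mat 0 1 1 0) = 0 := e2.symm
  simpa using e4

end Pool.Agent.HK.H59
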